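import Mathlib
import Pool.Agent.Q16.SQ.Stm2

/-!
# Rational sides: clearing denominators, and the two characters used in the families
-/

set_option autoImplicit false

namespace Pool.Agent.Q224.SQ

open Q16.SQ Pool.Agent.Helper549.Tri

/-- a positive integer that is the square of a rational number is a square -/
lemma sq_of_rat (N : ℕ) (q : ℚ) (h : (N : ℝ) = (q : ℝ) ^ 2) : IsSquare N := by
  have h1 : (N : ℚ) = q ^ 2 := by exact_mod_cast h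
  rw [← Rat.isSquare_natCast_iff, h1]
  exact ⟨q, by ring⟩

lemma rat_nat (q : ℚ) (hq : 0 < q) : ∃ n d : ℕ, 0 < n ∧ 0 < d ∧ (q : ℝ) = n / d := by
  refine ⟨q.num.natAbs, q.den, Int.natAbs_pos.2 (Rat.num_pos.2 hq).ne', q.den_pos, ?_⟩
  have h1 : ((q.num.natAbs : ℕ) : ℤ) = q.num := Int.natAbs_of_nonneg (Rat.num_pos.2 hq).le
  have h2 : ((q.num.natAbs : ℕ) : ℝ) = ((q.num : ℤ) : ℝ) := by
    rw [← h1]; simp
  rw [h2]
  exact_mod_cast (Rat.num_div_den q).symm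

/-- clearing denominators -/
lemma clear (x y z : ℝ) (hx : 0 < x) (hy : 0 < y) (hz : 0 < z) (qx : ∃ q : ℚ, x = q)
    (qy : ∃ q : ℚ, y = q) (qz : ∃ q : ℚ, z = q) :
    ∃ D : ℕ, 0 < D ∧ ∃ a b c : ℕ, 0 < a ∧ 0 < b ∧ 0 < c ∧ (a : ℝ) = D * x ∧ (b : ℝ) = D * y ∧
      (c : ℝ) = D * z := by
  obtain ⟨p, rfl⟩ := qx
  obtain ⟨q, rfl⟩ := qy
  obtain ⟨s, rfl⟩ := qz
  obtain ⟨n1, d1, a1, b1, e1⟩ := rat_nat p (by exact_mod_cast hx)
  obtain ⟨n2, d2, a2, b2, e2⟩ := rat_nat q (by exact_mod_cast hy)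
  obtain ⟨n3, d3, a3, b3, e3⟩ := rat_nat s (by exact_mod_cast hz)
  have c1 : (d1 : ℝ) ≠ 0 := by exact_mod_cast b1.ne'
  have c2 : (d2 : ℝ) ≠ 0 := by exact_mod_cast b2.ne'
  have c3 : (d3 : ℝ) ≠ 0 := by exact_mod_cast b3.ne'
  refine ⟨d1 * d2 * d3, by positivity, n1 * d2 * d3, n2 * d1 * d3, n3 * d1 * d2, by positivity,
    by positivity, by positivity, ?_, ?_, ?_⟩
  · rw [e1]; push_cast; field_simp
  · rw [e2]; push_cast; field_simp
  · rw [e3]; push_cast; field_simp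

end Pool.Agent.Q224.SQ
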