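import Mathlib
import Pool.Agent.Q224.SQ.Fb

/-!
# The fourth family
-/

set_option autoImplicit false

namespace Pool.Agent.Q224.SQ

open Q16.SQ Pool.Agent.Helper549.Tri

/-- a relation with rational coefficients: the coefficient of the second number vanishes if the
ratio is irrational -/
lemma coef_zero (a b : ℝ) (hb : 0 < b) (hirr : ¬ ∃ q : ℚ, a / b = q) (p q : ℚ)
    (h : (p : ℝ) * b = q * a) : p = 0 := by
  by_contra hp
  have hp' : (p : ℝ) ≠ 0 := by exact_mod_cast hp
  have hq : (q : ℝ) ≠ 0 := by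
    intro hq
    rw [hq, zero_mul] at h
    rcases mul_eq_zero.1 h with h | h
    · exact hp' h
    · exact hb.ne' h
  apply hirr
  refine ⟨p / q, ?_⟩
  push_cast
  rw [div_eq_div_iff hb.ne' hq]
  linarith

theorem t_F4 (h : S_SH4) : S_F4 := by
  intro N ℓ θ S A κ β hD hC hN hκ
  obtain ⟨hc, r, hr, hS0, hS1, hS2, hNr⟩ := h hD hκ
  subst hκ
  have ha := hD.lpos 0
  have hb := hD.lpos 1
  have hcp := hD.lpos 2
  have hs1 := hD.side 1
  have hs2 := hD.side 2
  obtain ⟨M, -, -, hM, -⟩ := hD.char ![1, -1, 1] (by intro k; fin_cases k <;> simp) (by simp)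
    ⟨2, by simp [K4, Fin.sum_univ_three]⟩ (by simp [K4, Fin.sum_univ_three, Fin.prod_univ_three])
  obtain ⟨M', -, -, hM', -⟩ := hD.char ![-1, 1, 1] (by intro k; fin_cases k <;> simp) (by simp)
    ⟨2, by simp [K4, Fin.sum_univ_three]⟩ (by simp [K4, Fin.sum_univ_three, Fin.prod_univ_three])
  simp only [Fin.sum_univ_three, Fin.prod_univ_three, K4, Matrix.cons_val_zero, Matrix.cons_val_one,
    Matrix.cons_val] at hM hM'
  norm_num at hM hM'
  rw [Fin.sum_univ_three] at hs1 hs2
  generalize ℓ 0 = a at *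
  generalize ℓ 1 = b at *
  generalize ℓ 2 = c at *
  generalize ht0 : S 0 = s0 at *
  generalize ht1 : S 1 = s1 at *
  generalize ht2 : S 2 = s2 at *
  clear h hD
  have hcb : b < c := by nlinarith
  have hca : a < c := by nlinarith
  have hba : 0 < b * a := mul_pos hb ha
  -- r (b + c) = - M a, r (c - b) = M' a
  have e1 : r * (b + c) = -M * a := by
    have h1 : (3 * b) * (r * (b + c) - -M * a) = 0 := by
      rw [hS0, hS1, hS2] at hM
      linear_combination (-a + b + c) * (-hM) + (-r - M) * hc
    rcases mul_eq_zero.1 h1 with h1 | h1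
    · exfalso; linarith
    · linarith
  have e2 : r * (c - b) = M' * a := by
    have h1 : (3 * b) * (r * (c - b) - M' * a) = 0 := by
      rw [hS0, hS1, hS2] at hM'
      linear_combination (a - b + c) * hM' + (r + M') * hc
    rcases mul_eq_zero.1 h1 with h1 | h1
    · exfalso; linarith
    · linarith
  obtain ⟨P, hP⟩ : ∃ P : ℚ, P = (M' - M) / 2 := ⟨_, rfl⟩
  obtain ⟨Q, hQ⟩ : ∃ Q : ℚ, Q = (-M - M') / 2 := ⟨_, rfl⟩
  have hPr : (P : ℝ) = ((M' : ℝ) - M) / 2 := by rw [hP]; push_cast; ring
  have hQr : (Q : ℝ) = (-(M : ℝ) - M') / 2 := by rw [hQ]; push_cast; ring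
  have f1 : r * c = P * a := by rw [hPr]; linear_combination (e1 + e2) / 2
  have f2 : r * b = Q * a := by rw [hQr]; linear_combination (e1 - e2) / 2
  have hrc : 0 < r * c := mul_pos hr hcp
  have hrb : 0 < r * b := mul_pos hr hb
  have hP0 : (0 : ℝ) < P := by
    rw [f1] at hrc
    exact pos_of_mul_pos_left hrc ha.le
  have hQ0 : (0 : ℝ) < Q := by
    rw [f2] at hrb
    exact pos_of_mul_pos_left hrb ha.le
  have hP0' : (0 : ℚ) < P := by exact_mod_cast hP0
  have hQ0' : (0 : ℚ) < Q := by exact_mod_cast hQ0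
  have hcb' : c = (P / Q) * b := by
    field_simp
    have : (Q * c - P * b) * a = 0 := by linear_combination b * f1 - c * f2
    rcases mul_eq_zero.1 this with h1 | h1
    · linarith
    · exfalso; linarith
  by_cases hq : ∃ q : ℚ, a / b = q
  · -- rational ratio
    obtain ⟨q, hq⟩ := hq
    have hab : a = q * b := by rw [← hq]; field_simp
    have hq0 : (0 : ℝ) < q := by rw [← hq]; positivity
    obtain ⟨w, hw⟩ : ∃ w : ℚ, w = β 2 0 * q + β 2 1 + β 2 2 * (P / Q) := ⟨_, rfl⟩
    have hrw : r = w := by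
      have h1 : (r - w) * b = 0 := by
        rw [hw]
        push_cast
        rw [hS2] at hs2
        rw [hab, hcb'] at hs2
        linear_combination hs2
      rcases mul_eq_zero.1 h1 with h1 | h1
      · linarith
      · exfalso; linarith
    have hcb2 : c / b = ((P / Q : ℚ) : ℝ) := by
      push_cast
      rw [hcb']
      field_simp
    obtain ⟨D, hDp, x, y, z, hx, hy, hz, ex, ey, ez⟩ := clear (a / b) 1 (c / b) (by positivity)
      one_pos (by positivity) ⟨_, hq⟩ ⟨1, by simp⟩ ⟨_, hcb2⟩
    have hD0 : (D : ℝ) ≠ 0 := by exact_mod_cast hDp.ne'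
    have hD1 : (0 : ℝ) < D := by exact_mod_cast hDp
    refine ⟨0, 1, 2, by decide, by decide, by decide, x + y, z, y, ?_,
      r * b / D, by positivity, ?_, ?_, ?_⟩
    · refine ⟨x, y, z, hx, hy, hz, Or.inr ⟨?_, Or.inr (Or.inl ⟨rfl, rfl, rfl, ?_⟩)⟩⟩
      · have : (z : ℝ) ^ 2 = (x : ℝ) ^ 2 + x * y + (y : ℝ) ^ 2 := by
          rw [ex, ey, ez]
          field_simp
          linear_combination hc
        exact_mod_cast this
      · rintro ⟨s, hs⟩
        apply hN
        apply sq_of_rat N (w * s / x)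
        have h1 : (x : ℝ) * (x + y) = s * s := by exact_mod_cast hs
        have hx0 : (0 : ℝ) < x := by exact_mod_cast hx
        push_cast
        rw [← hrw, div_pow, eq_div_iff (by positivity), mul_pow]
        have h2 : (s : ℝ) ^ 2 = (D * (a / b)) * (D * (a / b) + D * 1) := by
          rw [← ex, ← ey, h1]; ring
        rw [h2, ex]
        field_simp
        linear_combination hNr
    · rw [ht0, hS0]
      push_cast
      rw [ex, ey]
      field_simp
    · rw [ht1, hS1, ez]
      field_simp
    · rw [ht2, hS2, ey]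
      field_simp
  · -- irrational ratio
    exfalso
    have g2 : ((β 2 1 + β 2 2 * (P / Q) : ℚ)) = 0 := by
      apply coef_zero a b hb hq _ (Q - β 2 0)
      push_cast
      rw [hS2] at hs2
      rw [hcb'] at hs2
      linear_combination -hs2 + f2
    have g1 : ((β 1 1 + β 1 2 * (P / Q) : ℚ)) = 0 := by
      apply coef_zero a b hb hq _ (P - β 1 0)
      push_cast
      rw [hS1] at hs1
      have hs1' : r * c = (β 1 0 : ℝ) * a + β 1 1 * b + β 1 2 * (P / Q * b) := by
        rw [← hcb']; exact hs1
      linear_combination -hs1' + f1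
    have hPQ : 0 < P / Q := div_pos hP0' hQ0'
    have z1 : ∀ u v : ℕ, (u + v * (P / Q) : ℚ) = 0 → u = 0 ∧ v = 0 := by
      intro u v huv
      have hu : (0 : ℚ) ≤ u := by positivity
      have hv : (0 : ℚ) ≤ v * (P / Q) := by positivity
      have h1 : (u : ℚ) = 0 := by linarith
      have h2 : (v : ℚ) * (P / Q) = 0 := by linarith
      rcases mul_eq_zero.1 h2 with h2 | h2
      · exact ⟨by exact_mod_cast h1, by exact_mod_cast h2⟩
      · exact absurd h2 hPQ.ne'
    obtain ⟨b21, b22⟩ := z1 _ _ g2
    obtain ⟨b11, b12⟩ := z1 _ _ g1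
    obtain ⟨x, y, x', y', hxy, hxy', k1, k2, k3, k4, k5⟩ := hC 0 1 2 (by decide) (by decide)
      (by decide) (by simp [K4, Fin.sum_univ_three])
    have y0 : y = 0 := by
      fin_cases y
      · rfl
      · exact absurd k4 (by simp [b11])
      · exact absurd k4 (by simp [b12])
    have y0' : y' = 0 := by
      fin_cases y'
      · rfl
      · exact absurd k5 (by simp [b21])
      · exact absurd k5 (by simp [b22])
    subst y0 y0'
    have x1 : x = 1 := by
      fin_cases x
      · exact absurd rfl hxy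
      · rfl
      · exact absurd k1 (by simp [K4])
    have x1' : x' = 1 := by
      fin_cases x'
      · exact absurd rfl hxy'
      · rfl
      · exact absurd k2 (by simp [K4])
    subst x1 x1'
    have := k3 rfl
    simp [K4] at this

end Pool.Agent.Q224.SQ
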