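import Mathlib
import Pool.Agent.Q224.SQ.Fb

/-!
# The fifth family
-/

set_option autoImplicit false

namespace Pool.Agent.Q224.SQ

open Q16.SQ Pool.Agent.Helper549.Tri

theorem t_F5 (h : S_SH5) : S_F5 := by
  intro N ℓ θ S A κ β hD hN hκ
  obtain ⟨hc, r, hr, hS0, hS1, hS2, hNr⟩ := h hD hκ
  subst hκ
  have ha := hD.lpos 0
  have hb := hD.lpos 1
  have hcp := hD.lpos 2
  -- the first character
  obtain ⟨M, -, -, hM, -⟩ := hD.char ![1, -1, 1] (by intro k; fin_cases k <;> simp) (by simp)
    ⟨2, by simp [K5, Fin.sum_univ_three]⟩ (by simp [K5, Fin.sum_univ_three, Fin.prod_univ_three])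
  obtain ⟨M', -, -, hM', -⟩ := hD.char ![-1, 1, 1] (by intro k; fin_cases k <;> simp) (by simp)
    ⟨2, by simp [K5, Fin.sum_univ_three]⟩ (by simp [K5, Fin.sum_univ_three, Fin.prod_univ_three])
  simp only [Fin.sum_univ_three, Fin.prod_univ_three, K5, Matrix.cons_val_zero, Matrix.cons_val_one,
    Matrix.cons_val] at hM hM'
  norm_num at hM hM'
  generalize ℓ 0 = a at *
  generalize ℓ 1 = b at *
  generalize ℓ 2 = c at *
  generalize hs0 : S 0 = s0 at *
  generalize hs1 : S 1 = s1 at *
  generalize hs2 : S 2 = s2 at *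
  clear h hD
  have hcb : b < c := by nlinarith
  have hca : a < c := by nlinarith
  have e1 : (M : ℝ) = r * (c - a) := by
    have h1 : (r * (c - a) - M) * (a - b + c) = 0 := by
      have : r * (c - a) * (a - b + c) = r * (b * (2 * a + b - c)) := by
        linear_combination r * hc
      rw [sub_mul, this]
      rw [hS0, hS1, hS2] at hM
      linear_combination hM
    rcases mul_eq_zero.1 h1 with h1 | h1
    · linarith
    · exfalso; linarith
  have e2 : (M' : ℝ) = r * (c + a) := by
    have h1 : (r * (c + a) - M') * (-a + b + c) = 0 := by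
      have : r * (c + a) * (-a + b + c) = r * (b * (2 * a + b + c)) := by
        linear_combination r * hc
      rw [sub_mul, this]
      rw [hS0, hS1, hS2] at hM'
      linear_combination hM'
    rcases mul_eq_zero.1 h1 with h1 | h1
    · linarith
    · exfalso; linarith
  have qx : r * a = (((M' - M : ℤ) / 2 : ℚ) : ℝ) := by
    push_cast
    linear_combination (e1 - e2) / 2
  have qz : r * c = (((M' + M : ℤ) / 2 : ℚ) : ℝ) := by
    push_cast
    linear_combination (-e1 - e2) / 2
  have hra : 0 < r * a := mul_pos hr ha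
  have hrb : 0 < r * b := mul_pos hr hb
  have hrc : 0 < r * c := mul_pos hr hcp
  have hy : r * b = ((N : ℝ) - (r * a) ^ 2 - (r * c) ^ 2) / (2 * (r * a)) := by
    rw [eq_div_iff (by positivity), hNr]
    linear_combination r ^ 2 * hc
  have qy : ∃ q : ℚ, r * b = q := by
    rw [hy, qx, qz]
    exact ⟨((N : ℚ) - ((M' - M : ℤ) / 2) ^ 2 - ((M' + M : ℤ) / 2) ^ 2) /
      (2 * ((M' - M : ℤ) / 2)), by push_cast; rfl⟩
  obtain ⟨D, hDp, x, y, z, hx, hy', hz, ex, ey, ez⟩ := clear (r * a) (r * b) (r * c) hra hrb hrc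
    ⟨_, qx⟩ qy ⟨_, qz⟩
  have hD0 : (D : ℝ) ≠ 0 := by exact_mod_cast hDp.ne'
  refine ⟨0, 1, 2, by decide, by decide, by decide, (x + y) * z, y * (2 * x + y), x * z, ?_,
    1 / (r * D ^ 2), by positivity, ?_, ?_, ?_⟩
  · refine ⟨x, y, z, hx, hy', hz, Or.inr ⟨?_, Or.inr (Or.inr (Or.inl ⟨rfl, rfl, rfl, ?_⟩))⟩⟩
    · have : (z : ℝ) ^ 2 = (x : ℝ) ^ 2 + x * y + (y : ℝ) ^ 2 := by
        rw [ex, ey, ez]
        linear_combination (D * r) ^ 2 * hc
      exact_mod_cast this
    · rintro ⟨s, hs⟩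
      apply hN
      apply sq_of_rat N ((s : ℚ) / D)
      have h1 : ((x : ℝ) + y) * (2 * x + y) = s * s := by exact_mod_cast hs
      rw [ex, ey] at h1
      push_cast
      rw [div_pow, eq_div_iff (by positivity), hNr]
      linear_combination h1
  · rw [hs0, hS0]
    push_cast
    rw [ex, ey, ez]
    field_simp
  · rw [hs1, hS1]
    push_cast
    rw [ex, ey]
    field_simp
  · rw [hs2, hS2]
    push_cast
    rw [ex, ez]
    field_simp

end Pool.Agent.Q224.SQ
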