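import Mathlib
import Pool.Agent.Q16.SQ.Stm

/-!
# The median of an isosceles triangle cuts it into two congruent triangles
-/

set_option autoImplicit false

namespace Pool.Agent.Q224.SQ

open Q16.SQ Pool.Agent.Helper549.Tri

theorem t_ISO2 (h1 : S_ISOM) (h2 : S_SPLIT) : S_ISO2 := by
  intro T hT hd
  obtain ⟨i1, i2, hU, hD⟩ := h2 T hT (1 / 2) (by norm_num) (by norm_num)
  set M : E2 := AffineMap.lineMap (T 1) (T 2) (1 / 2 : ℝ) with hM
  have hM1 : dist (T 1) M = dist (T 2) M := by
    rw [hM, dist_left_lineMap, dist_right_lineMap]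
    norm_num
  have d12 : ∀ i j, dist ((![T 0, T 1, M] : Fin 3 → E2) i) ((![T 0, T 1, M] : Fin 3 → E2) j) =
      dist ((![T 0, T 2, M] : Fin 3 → E2) i) ((![T 0, T 2, M] : Fin 3 → E2) j) := by
    intro i j
    fin_cases i <;> fin_cases j
    · simp
    · simpa using hd
    · simp
    · simpa [dist_comm] using hd
    · simp
    · simpa using hM1
    · simp
    · simpa [dist_comm] using hM1
    · simp
  have f12 := h1 _ _ i1 d12
  have f21 := h1 _ _ i2 (fun i j => (d12 i j).symm)
  refine ⟨![![T 0, T 1, M], ![T 0, T 2, M]], ?_, ?_, ?_, ?_⟩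
  · intro i
    fin_cases i
    · exact i1
    · exact i2
  · intro i j
    fin_cases i <;> fin_cases j
    · exact ⟨IsometryEquiv.refl _, Set.image_id _⟩
    · exact f12
    · exact f21
    · exact ⟨IsometryEquiv.refl _, Set.image_id _⟩
  · rw [← hU]
    ext x
    simp [Fin.exists_fin_succ]
  · intro i j hij
    fin_cases i <;> fin_cases j
    · exact absurd rfl hij
    · exact hD
    · exact hD.symm
    · exact absurd rfl hij

end Pool.Agent.Q224.SQ
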