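import Mathlib
import Pool.Agent.Q16.SQ.Stm

/-!
# A cevian cuts a triangle into two
-/

set_option autoImplicit false

namespace Pool.Agent.Q224.SQ

open Q16.SQ Pool.Agent.Helper549.Tri

/-- affine independence of three points, by linear combinations -/
lemma aff_iff (P : Fin 3 → E2) : AffineIndependent ℝ P ↔
    ∀ w : Fin 3 → ℝ, w 0 + w 1 + w 2 = 0 → w 0 • P 0 + w 1 • P 1 + w 2 • P 2 = 0 →
      w 0 = 0 ∧ w 1 = 0 ∧ w 2 = 0 := by
  rw [affineIndependent_iff_of_fintype]
  constructor
  · intro h w h1 h2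
    have hs : ∑ i, w i = 0 := by rw [Fin.sum_univ_three]; exact h1
    have h3 := h w hs (by
      rw [Finset.weightedVSub_eq_linear_combination _ hs, Fin.sum_univ_three]; exact h2)
    exact ⟨h3 0, h3 1, h3 2⟩
  · intro h w hs h2
    rw [Finset.weightedVSub_eq_linear_combination _ hs, Fin.sum_univ_three] at h2
    rw [Fin.sum_univ_three] at hs
    obtain ⟨a, b, c⟩ := h w hs h2
    intro i
    fin_cases i
    · exact a
    · exact b
    · exact c

/-- the affine basis given by three affinely independent points of the plane -/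
noncomputable def bas (P : Fin 3 → E2) (h : AffineIndependent ℝ P) : AffineBasis (Fin 3) ℝ E2 :=
  ⟨P, h, by
    rw [h.affineSpan_eq_top_iff_card_eq_finrank_add_one]
    simp⟩

lemma bas_apply (P : Fin 3 → E2) (h : AffineIndependent ℝ P) (i : Fin 3) : bas P h i = P i := rfl

lemma coe_bas (P : Fin 3 → E2) (h : AffineIndependent ℝ P) : (bas P h : Fin 3 → E2) = P := rfl

/-- the sum of the coordinates -/
lemma csum (P : Fin 3 → E2) (h : AffineIndependent ℝ P) (x : E2) :
    (bas P h).coord 0 x + (bas P h).coord 1 x + (bas P h).coord 2 x = 1 := by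
  have := (bas P h).sum_coord_apply_eq_one x
  rwa [Fin.sum_univ_three] at this

lemma cself (P : Fin 3 → E2) (h : AffineIndependent ℝ P) (x : E2) :
    (bas P h).coord 0 x • P 0 + (bas P h).coord 1 x • P 1 + (bas P h).coord 2 x • P 2 = x := by
  have := (bas P h).linear_combination_coord_eq_self x
  rwa [Fin.sum_univ_three] at this

/-- the coordinates are unique -/
lemma cuniq (P : Fin 3 → E2) (h : AffineIndependent ℝ P) (x : E2) (a b c : ℝ) (hs : a + b + c = 1)
    (hx : a • P 0 + b • P 1 + c • P 2 = x) :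
    (bas P h).coord 0 x = a ∧ (bas P h).coord 1 x = b ∧ (bas P h).coord 2 x = c := by
  have h1 := csum P h x
  have h2 := cself P h x
  have h3 := (aff_iff P).1 h ![(bas P h).coord 0 x - a, (bas P h).coord 1 x - b,
    (bas P h).coord 2 x - c] (by simp; linarith) (by
      simp only [Matrix.cons_val_zero, Matrix.cons_val_one, Matrix.cons_val]
      have : ((bas P h).coord 0 x - a) • P 0 + ((bas P h).coord 1 x - b) • P 1 +
          ((bas P h).coord 2 x - c) • P 2 =
          ((bas P h).coord 0 x • P 0 + (bas P h).coord 1 x • P 1 + (bas P h).coord 2 x • P 2) -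
            (a • P 0 + b • P 1 + c • P 2) := by
        simp only [sub_smul]
        abel
      rw [this, h2, hx, sub_self])
  simp only [Matrix.cons_val_zero, Matrix.cons_val_one, Matrix.cons_val] at h3
  obtain ⟨p, q, r⟩ := h3
  exact ⟨by linarith, by linarith, by linarith⟩

lemma mem_tri (P : Fin 3 → E2) (h : AffineIndependent ℝ P) (x : E2) :
    x ∈ TriSet P ↔ 0 ≤ (bas P h).coord 0 x ∧ 0 ≤ (bas P h).coord 1 x ∧ 0 ≤ (bas P h).coord 2 x := by
  have := (bas P h).convexHull_eq_nonneg_coord
  rw [coe_bas] at this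
  unfold TriSet
  rw [this]
  simp [Fin.forall_fin_succ]

lemma mem_int (P : Fin 3 → E2) (h : AffineIndependent ℝ P) (x : E2) :
    x ∈ interior (TriSet P) ↔
      0 < (bas P h).coord 0 x ∧ 0 < (bas P h).coord 1 x ∧ 0 < (bas P h).coord 2 x := by
  have := (bas P h).interior_convexHull
  rw [coe_bas] at this
  unfold TriSet
  rw [this]
  simp [Fin.forall_fin_succ]

section

variable (T : Fin 3 → E2) (hT : AffineIndependent ℝ T) (t : ℝ)

lemma lm : (AffineMap.lineMap (T 1) (T 2) t : E2) = (1 - t) • T 1 + t • T 2 := by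
  rw [AffineMap.lineMap_apply_module]

include hT in
lemma ind1 (h0 : 0 < t) : AffineIndependent ℝ ![T 0, T 1, AffineMap.lineMap (T 1) (T 2) t] := by
  rw [aff_iff]
  intro w hs hw
  simp only [Matrix.cons_val_zero, Matrix.cons_val_one, Matrix.cons_val, lm] at hw
  have h := (aff_iff T).1 hT ![w 0, w 1 + w 2 * (1 - t), w 2 * t] (by simp; linarith) (by
    simp only [Matrix.cons_val_zero, Matrix.cons_val_one, Matrix.cons_val]
    rw [← hw]
    module)
  simp only [Matrix.cons_val_zero, Matrix.cons_val_one, Matrix.cons_val] at h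
  obtain ⟨a, b, c⟩ := h
  have hc : w 2 = 0 := by
    rcases mul_eq_zero.1 c with c | c
    · exact c
    · exact absurd c h0.ne'
  rw [hc] at b
  exact ⟨a, by linarith, hc⟩

include hT in
lemma ind2 (h1 : t < 1) : AffineIndependent ℝ ![T 0, T 2, AffineMap.lineMap (T 1) (T 2) t] := by
  rw [aff_iff]
  intro w hs hw
  simp only [Matrix.cons_val_zero, Matrix.cons_val_one, Matrix.cons_val, lm] at hw
  have h := (aff_iff T).1 hT ![w 0, w 2 * (1 - t), w 1 + w 2 * t] (by simp; linarith) (by
    simp only [Matrix.cons_val_zero, Matrix.cons_val_one, Matrix.cons_val]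
    rw [← hw]
    module)
  simp only [Matrix.cons_val_zero, Matrix.cons_val_one, Matrix.cons_val] at h
  obtain ⟨a, b, c⟩ := h
  have hc : w 2 = 0 := by
    rcases mul_eq_zero.1 b with c | c
    · exact c
    · exact absurd c (by linarith)
  rw [hc] at c
  exact ⟨a, by linarith, hc⟩

/-- coordinates with respect to the first part -/
lemma co1 (h0 : 0 < t) (x : E2) :
    (bas T hT).coord 0 x = (bas _ (ind1 T hT t h0)).coord 0 x ∧
    (bas T hT).coord 1 x = (bas _ (ind1 T hT t h0)).coord 1 x +
      (bas _ (ind1 T hT t h0)).coord 2 x * (1 - t) ∧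
    (bas T hT).coord 2 x = (bas _ (ind1 T hT t h0)).coord 2 x * t := by
  have h1 := csum _ (ind1 T hT t h0) x
  have h2 := cself _ (ind1 T hT t h0) x
  generalize (bas _ (ind1 T hT t h0)).coord 0 x = p0 at *
  generalize (bas _ (ind1 T hT t h0)).coord 1 x = p1 at *
  generalize (bas _ (ind1 T hT t h0)).coord 2 x = p2 at *
  simp only [Matrix.cons_val_zero, Matrix.cons_val_one, Matrix.cons_val, lm] at h2
  apply cuniq T hT x
  · linarith
  · rw [← h2]
    module

/-- coordinates with respect to the second part -/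
lemma co2 (h1 : t < 1) (x : E2) :
    (bas T hT).coord 0 x = (bas _ (ind2 T hT t h1)).coord 0 x ∧
    (bas T hT).coord 1 x = (bas _ (ind2 T hT t h1)).coord 2 x * (1 - t) ∧
    (bas T hT).coord 2 x = (bas _ (ind2 T hT t h1)).coord 1 x +
      (bas _ (ind2 T hT t h1)).coord 2 x * t := by
  have h3 := csum _ (ind2 T hT t h1) x
  have h2 := cself _ (ind2 T hT t h1) x
  generalize (bas _ (ind2 T hT t h1)).coord 0 x = p0 at *
  generalize (bas _ (ind2 T hT t h1)).coord 1 x = p1 at *
  generalize (bas _ (ind2 T hT t h1)).coord 2 x = p2 at *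
  simp only [Matrix.cons_val_zero, Matrix.cons_val_one, Matrix.cons_val, lm] at h2
  apply cuniq T hT x
  · linarith
  · rw [← h2]
    module

end

theorem t_SPLIT : S_SPLIT := by
  intro T hT t h0 h1
  refine ⟨ind1 T hT t h0, ind2 T hT t h1, ?_, ?_⟩
  · ext x
    rw [Set.mem_union, mem_tri _ (ind1 T hT t h0), mem_tri _ (ind2 T hT t h1), mem_tri _ hT]
    obtain ⟨a0, a1, a2⟩ := co1 T hT t h0 x
    obtain ⟨b0, b1, b2⟩ := co2 T hT t h1 x
    set c0 := (bas T hT).coord 0 x
    set c1 := (bas T hT).coord 1 x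
    set c2 := (bas T hT).coord 2 x
    set u0 := (bas _ (ind1 T hT t h0)).coord 0 x
    set u1 := (bas _ (ind1 T hT t h0)).coord 1 x
    set u2 := (bas _ (ind1 T hT t h0)).coord 2 x
    set v0 := (bas _ (ind2 T hT t h1)).coord 0 x
    set v1 := (bas _ (ind2 T hT t h1)).coord 1 x
    set v2 := (bas _ (ind2 T hT t h1)).coord 2 x
    have h1' : 0 < 1 - t := by linarith
    constructor
    · rintro (⟨p, q, r⟩ | ⟨p, q, r⟩)
      · refine ⟨a0 ▸ p, ?_, ?_⟩
        · rw [a1]; positivity
        · rw [a2]; positivity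
      · refine ⟨b0 ▸ p, ?_, ?_⟩
        · rw [b1]; positivity
        · rw [b2]; positivity
    · rintro ⟨p, q, r⟩
      have hu2 : 0 ≤ u2 := by
        by_contra hc
        push Not at hc
        have := mul_neg_of_neg_of_pos hc h0
        linarith
      have hv2 : 0 ≤ v2 := by
        by_contra hc
        push Not at hc
        have := mul_neg_of_neg_of_pos hc h1'
        linarith
      rcases le_or_gt 0 u1 with hu1 | hu1
      · left
        exact ⟨a0 ▸ p, hu1, hu2⟩
      · right
        refine ⟨b0 ▸ p, ?_, hv2⟩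
        have e1 : c1 * t - c2 * (1 - t) = u1 * t := by rw [a1, a2]; ring
        have e2 : c1 * t - c2 * (1 - t) = -(v1 * (1 - t)) := by rw [b1, b2]; ring
        have h3 : 0 < v1 * (1 - t) := by
          have := mul_neg_of_neg_of_pos hu1 h0
          linarith
        exact (pos_of_mul_pos_left h3 h1'.le).le
  · rw [Set.disjoint_left]
    intro x hx hx'
    rw [mem_int _ (ind1 T hT t h0)] at hx
    rw [mem_int _ (ind2 T hT t h1)] at hx'
    obtain ⟨a0, a1, a2⟩ := co1 T hT t h0 x
    obtain ⟨b0, b1, b2⟩ := co2 T hT t h1 x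
    set c1 := (bas T hT).coord 1 x
    set c2 := (bas T hT).coord 2 x
    set u1 := (bas _ (ind1 T hT t h0)).coord 1 x
    set u2 := (bas _ (ind1 T hT t h0)).coord 2 x
    set v1 := (bas _ (ind2 T hT t h1)).coord 1 x
    set v2 := (bas _ (ind2 T hT t h1)).coord 2 x
    have h1' : 0 < 1 - t := by linarith
    have e1 : c1 * t - c2 * (1 - t) = u1 * t := by rw [a1, a2]; ring
    have e2 : c1 * t - c2 * (1 - t) = -(v1 * (1 - t)) := by rw [b1, b2]; ring
    have h3 : 0 < u1 * t := mul_pos hx.2.1 h0
    have h4 : 0 < v1 * (1 - t) := mul_pos hx'.2.1 h1'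
    linarith

end Pool.Agent.Q224.SQ
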